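import Pool.Agent.Work.MP_a98e4e_ag.Core.SetupOf
import Pool.Agent.Work.MP_a98e4e_ag.Core.FromMono
import Pool.Agent.Work.MP_a98e4e_ag.Core.Deliver
import Pool.Agent.Work.MP_a98e4e_ag.XE.Prim
import Pool.Agent.Work.MP_a98e4e_ag.XE.Mem
import Pool.Agent.Work.MP_a98e4e_ag.D.GDat
import Pool.Agent.Work.MP_a98e4e_ag.D.Vol

/-!
MP_a98e4e_ag (licci), module Z (helper23): some coordinate of the point of the cone is a unit.
-/

set_option autoImplicit false

namespace Pool.Agent.Licci.Z

open IsLocalRing RingTheory.Sequence LicciCodimFour Pool.Agent.Licci.D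

universe u

variable {R : Type u} [CommRing R]

/-- the dual of a finite module over a noetherian ring is finite -/
theorem finite_dual [IsNoetherianRing R] (N : Type u) [AddCommGroup N] [Module R N]
    [Module.Finite R N] : Module.Finite R (Module.Dual R N) := by
  obtain ⟨n, s, hs⟩ := Module.Finite.exists_fin' R N
  have hinj : Function.Injective s.dualMap := LinearMap.dualMap_injective_of_surjective hs
  exact Module.Finite.of_injective s.dualMap hinj

theorem range_fv (p : E8 R) : LinearMap.range (fv p) = Ideal.span (Set.range (p3 p)) := by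
  apply le_antisymm
  · rintro _ ⟨v, rfl⟩
    rw [fv_apply]
    exact Submodule.sum_mem _ fun m _ => Ideal.mul_mem_right _ _ (Ideal.subset_span ⟨m, rfl⟩)
  · refine Submodule.span_le.2 ?_
    rintro _ ⟨i, rfl⟩
    exact ⟨Pi.single i 1, fv_single p i⟩

omit [CommRing R] in
theorem p3_eq (p : E8 R) (i : Fin 8) : p3 p i = p (ix i) := rfl

theorem kf_p_db (p : E8 R) (i : Fin 8) : kf p (db (ix i)) = p3 p i := by
  rw [kf_symm, kf_db_apply]; rfl

/-- the ideal of the form contains a power of the maximal ideal -/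
theorem pow_le_p3 [IsLocalRing R] [IsNoetherianRing R] {p : E8 R} {a : Fin 6 → Fin 8 → R} {w : R}
    (h : GDat R (fv p) a w) (hdim : ringKrullDim R = (6 : ℕ)) :
    ∃ k, maximalIdeal R ^ k ≤ Ideal.span (Set.range (p3 p)) := by
  obtain ⟨k, hk⟩ := XE.exists_pow_le_of_regular (List.ofFn fun i => fv p (a i)) h.reg
    (fun r hr => by
      obtain ⟨i, rfl⟩ := (List.mem_ofFn' _ _).1 hr
      exact h.mem _) (by rw [List.length_ofFn]; exact hdim)
  refine ⟨k, hk.trans ?_⟩
  rw [Ideal.ofList, Ideal.span_le]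
  intro r hr
  obtain ⟨i, rfl⟩ := (List.mem_ofFn' _ _).1 hr
  rw [← range_fv]
  exact ⟨a i, rfl⟩

theorem exists_p3_ne [IsLocalRing R] {p : E8 R} {a : Fin 6 → Fin 8 → R} {w : R}
    (h : GDat R (fv p) a w) : ∃ q : Fin 8, p (ix q) ≠ 0 := by
  by_contra hcon
  push Not at hcon
  have h1 : ∀ v, fv p v = 0 := fun v => by
    rw [fv_apply]
    exact Finset.sum_eq_zero fun m _ => by rw [p3_eq, hcon, zero_mul]
  have h2 : IsWeaklyRegular R (List.ofFn fun i => fv p (a i)) := h.reg
  rw [List.ofFn_succ] at h2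
  have h3 := ((isWeaklyRegular_cons_iff R _ _).1 h2).1
  rw [h1] at h3
  have h4 : (1 : R) = 0 := h3 (show (0 : R) • (1 : R) = (0 : R) • (0 : R) by simp)
  exact one_ne_zero h4

/-- **CORE**, from `Ext ^ 2 = Ext ^ 3 = 0`. -/
theorem unit_of_h23 [IsRegularLocalRing R] [CharZero (ResidueField R)] [Algebra ℚ R]
    {p : E8 R} {a : Fin 6 → Fin 8 → R} {w : R} (hc : Cone p) (h : GDat R (fv p) a w)
    (hdim : ringKrullDim R = (6 : ℕ)) (h23 : XE.H23 R (Module.Dual R (XE.VR p))) :
    ∃ m, IsUnit (p m) := by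
  have : IsDomain R := isDomain_of_isRegularLocalRing R
  have : CharZero R := algebraRat.charZero R
  have hspan : (maximalIdeal R).spanFinrank = 6 := by
    have h1 := IsRegularLocalRing.spanFinrank_maximalIdeal (R := R)
    rw [hdim] at h1
    exact_mod_cast h1
  obtain ⟨q, hq⟩ := exists_p3_ne h
  have hp0 : p ≠ 0 := fun h0 => hq (by rw [h0]; rfl)
  obtain ⟨k, hk⟩ := pow_le_p3 h hdim
  have hm : ∀ r ∈ maximalIdeal R ^ k, ∃ e, kf p e = r := by
    intro r hr
    have h1 := hk hr
    rw [← range_fv] at h1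
    obtain ⟨v, rfl⟩ := h1
    refine ⟨∑ i, v i • db (ix i), ?_⟩
    rw [fv_apply]
    have h2 : ∀ s : Finset (Fin 8), kf p (∑ i ∈ s, v i • db (ix i)) =
        ∑ i ∈ s, p3 p i * v i := by
      intro s
      induction s using Finset.induction_on with
      | empty =>
        rw [Finset.sum_empty, Finset.sum_empty, kf_symm]
        exact XE.kfz p
      | insert i s hi ih =>
        rw [Finset.sum_insert hi, Finset.sum_insert hi, kf_symm, XE.kfa, kf_symm _ p,
          kf_symm _ p, ih, kf_symm p, XE.kfs, kf_symm _ p, kf_p_db, mul_comm]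
    exact h2 _
  obtain ⟨b, S, hgen⟩ := LicciCore.exists_setup hspan hc ⟨k, hm⟩ ⟨q, hq⟩
  have hf : ∀ y ∈ maximalIdeal R, ∃ n : ℕ, y ^ n ∈ Ideal.span (Set.range (p3 p)) :=
    fun y hy => ⟨k, hk (Ideal.pow_mem_pow hy k)⟩
  have : Module.Finite R (Module.Dual R (XE.VR p)) := finite_dual _
  have hV : XE.UP R (XE.VR p) := XE.UP_VR hc hf
  obtain ⟨e, n, c, ⟨D⟩⟩ := LicciCore.exists_coreData S hgen (XE.mem_Phi_iff_F1 hc hp0) h23
    hV.dual hV
  exact LicciCore.core S D hgen

end Pool.Agent.Licci.Z
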