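import Pool.Agent.Work.MP_a98e4e_ag.Z.Glue
import Pool.Agent.Work.MP_a98e4e_ag.D.FinalAll

/-!
MP_a98e4e_ag (licci), module Z (helper23): all Dynkin cases in codimension at least four from the
four parts (CORE), (P), (SIX), (FIVE).
-/

set_option autoImplicit false

namespace Pool.Agent.Licci.Z

open IsLocalRing LicciCodimFour Pool.Agent.Licci.D

universe u

theorem licci_of_parts (core : CoreStatement.{u}) (P : PStatement.{u}) (six : SixStatement.{u})
    (five : FiveStatement.{u}) (R : Type u) [CommRing R] [IsRegularLocalRing R]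
    [CharZero (ResidueField R)] (I : Ideal R) (c d t : ℕ) (hc : 4 ≤ c) (hd : 1 ≤ d) (ht : 1 ≤ t)
    (hdyn : IsDynkinT (c - 1) (d + 1) (t + 1)) (hI : IsPerfectOfInvariants I c d t) :
    IsLicci I := by
  have : Infinite (ResidueField R) :=
    Infinite.of_injective _ (Nat.cast_injective (R := ResidueField R))
  obtain ⟨_⟩ := exists_algebra_rat R
  exact licci_of_mainG R (main5 core P five R) (main6 core P six R) I c d t hc hd ht hdyn hI

end Pool.Agent.Licci.Z
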