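import Pool.Agent.Work.MP_a98e4e_ag.Z.Parts
import Pool.Agent.Work.MP_a98e4e_ag.L.Exp

/-!
MP_a98e4e_ag (licci), module Z (helper23): the glue from the parts to the core statements in
codimension five and six.
-/

set_option autoImplicit false

namespace Pool.Agent.Licci.Z

open IsLocalRing RingTheory.Sequence LicciCodimFour PowerSeries Pool.Agent.Licci.D
open Pool.Agent.Licci.P5

universe u

section maps

variable {R S : Type u} [CommRing R] [CommRing S] (φ : R →+* S)

theorem p3_comp (p : E8 R) (i : Fin 8) : p3 (φ ∘ p : E8 S) i = φ (p3 p i) := rfl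

theorem w2_comp (p : E8 R) (i j : Fin 8) : w2 (φ ∘ p : E8 S) i j = φ (w2 p i j) := by
  simp only [w2, Function.comp_apply, map_mul, map_intCast]

/-- the matrix with rows `e_i, e_j, x_1, …, x_6` -/
def rowM (i j : Fin 8) (x : Fin 6 → Fin 8 → R) : Matrix (Fin 8) (Fin 8) R :=
  Matrix.of (Matrix.vecCons (Pi.single i 1) (Matrix.vecCons (Pi.single j 1) x) : Fin 8 → Fin 8 → R)

theorem detRow_apply (i j : Fin 8) (x : Fin 6 → Fin 8 → R) :
    (((Matrix.detRowAlternating (R := R) (n := Fin 8)).curryLeft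
      (Pi.single i 1)).curryLeft (Pi.single j 1)) x = (rowM i j x).det := by
  rw [AlternatingMap.curryLeft_apply_apply, AlternatingMap.curryLeft_apply_apply]
  exact congrArg (fun M : Matrix (Fin 8) (Fin 8) R => M.det) rfl

theorem altsum_apply {ι M : Type*} [AddCommGroup M] [Module R M] {n : ℕ} (s : Finset ι)
    (g : ι → M [⋀^Fin n]→ₗ[R] R) (x : Fin n → M) : (∑ i ∈ s, g i) x = ∑ i ∈ s, g i x := by
  classical
  induction s using Finset.induction_on with
  | empty => rfl
  | insert i s hi ih => rw [Finset.sum_insert hi, Finset.sum_insert hi, AlternatingMap.add_apply, ih]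

theorem nu6_apply (p : E8 R) (x : Fin 6 → Fin 8 → R) :
    nu6 p x = ∑ i : Fin 8, ∑ j : Fin 8, (if i < j then w2 p i j else 0) * (rowM i j x).det := by
  rw [nu6, altsum_apply]
  refine Finset.sum_congr rfl fun i _ => ?_
  rw [altsum_apply]
  refine Finset.sum_congr rfl fun j _ => ?_
  rw [AlternatingMap.smul_apply, detRow_apply, smul_eq_mul]

theorem rowM_map (i j : Fin 8) (x : Fin 6 → Fin 8 → R) :
    (rowM i j fun k l => φ (x k l)).det = φ (rowM i j x).det := by
  rw [RingHom.map_det]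
  congr 1
  ext k l
  rw [RingHom.mapMatrix_apply, Matrix.map_apply]
  refine Fin.cases ?_ (fun k => ?_) k
  · show (Pi.single i 1 : Fin 8 → S) l = φ ((Pi.single i 1 : Fin 8 → R) l)
    by_cases h : l = i
    · subst h; simp
    · simp [Pi.single_eq_of_ne h]
  · refine Fin.cases ?_ (fun k => ?_) k
    · show (Pi.single j 1 : Fin 8 → S) l = φ ((Pi.single j 1 : Fin 8 → R) l)
      by_cases h : l = j
      · subst h; simp
      · simp [Pi.single_eq_of_ne h]
    · rfl

theorem nu6_comp (p : E8 R) (x : Fin 6 → Fin 8 → R) :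
    nu6 (φ ∘ p : E8 S) (fun i j => φ (x i j)) = φ (nu6 p x) := by
  rw [nu6_apply, nu6_apply, map_sum]
  refine Finset.sum_congr rfl fun i _ => ?_
  rw [map_sum]
  refine Finset.sum_congr rfl fun j _ => ?_
  rw [map_mul, rowM_map, w2_comp]
  congr 1
  split_ifs
  · rfl
  · rw [map_zero]

/-- the six-form of `p` on tuples containing `e_8` depends only on `w2 p i j`, `i, j ≠ 8` -/
theorem nu6_congr {p q : E8 R} (h : ∀ i j, i ≠ 7 → j ≠ 7 → w2 p i j = w2 q i j)
    (x : Fin 6 → Fin 8 → R) (hx : x 0 = Pi.single 7 1) : nu6 p x = nu6 q x := by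
  rw [nu6_apply, nu6_apply]
  refine Finset.sum_congr rfl fun i _ => Finset.sum_congr rfl fun j _ => ?_
  by_cases hi : i = 7
  · have : (rowM i j x).det = 0 := by
      refine Matrix.det_zero_of_row_eq (i := 0) (j := 2) (by decide) ?_
      subst hi
      exact hx.symm
    rw [this, mul_zero, mul_zero]
  · by_cases hj : j = 7
    · have : (rowM i j x).det = 0 := by
        refine Matrix.det_zero_of_row_eq (i := 1) (j := 2) (by decide) ?_
        subst hj
        exact hx.symm
      rw [this, mul_zero, mul_zero]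
    · rw [h i j hi hj]

theorem lf_single (v : Vec R) (i : Fin 8) : lf v (Pi.single i 1) = v i := by
  rw [lf_apply, Finset.sum_eq_single i]
  · simp
  · intro j _ hj; simp [Pi.single_eq_of_ne hj]
  · simp

theorem lf_comp (p : E8 R) (v : Fin 8 → R) :
    lf (p3 (φ ∘ p : E8 S)) (fun i => φ (v i)) = φ (lf (p3 p) v) := by
  rw [lf_apply, lf_apply, map_sum]
  exact Finset.sum_congr rfl fun i _ => by rw [map_mul]; rfl

end maps

/-- a unit coordinate is reflected by local homomorphisms -/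
theorem isUnit_of_map {R S : Type u} [CommRing R] [CommRing S] [IsLocalRing R] [IsLocalRing S]
    {φ : R →+* S} (hloc : ∀ r, φ r ∈ maximalIdeal S ↔ r ∈ maximalIdeal R) {r : R}
    (h : IsUnit (φ r)) : IsUnit r := by
  by_contra hcon
  have h1 : r ∈ maximalIdeal R := (mem_maximalIdeal _).2 hcon
  exact ((mem_maximalIdeal _).1 ((hloc _).2 h1)) h

/-- the slice of a datum with another `w` -/
theorem slice_congr {R S : Type u} [CommRing R] [CommRing S] [IsLocalRing R] [IsLocalRing S]
    {φ : R →+* S} {n c : ℕ} {f : (Fin n → R) →ₗ[R] R} {f' : (Fin n → S) →ₗ[S] S}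
    (hf : ∀ v : Fin n → R, f' (fun i => φ (v i)) = φ (f v)) {a : Fin c → Fin n → R} {w w' : R}
    (h : GDat S f' (fun i j => φ (a i j)) (φ w))
    (hw : w' - w ∈ Ideal.span (Set.range fun i => f (a i))) :
    GDat S f' (fun i j => φ (a i j)) (φ w') := by
  refine gdat_congr h ?_
  have h1 := Ideal.mem_map_of_mem φ hw
  rw [map_sub, Ideal.map_span] at h1
  refine Ideal.span_mono ?_ h1
  rintro _ ⟨_, ⟨i, rfl⟩, rfl⟩
  exact ⟨i, hf (a i)⟩

/-- a surjection determines the reduced form -/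
theorem form_unique {R S : Type u} [CommRing R] [CommRing S] {φ : R →+* S}
    (hφ : Function.Surjective φ) {n : ℕ} {g g' : (Fin n → S) →ₗ[S] S}
    (h : ∀ v : Fin n → R, g (fun i => φ (v i)) = g' (fun i => φ (v i))) : g = g' := by
  refine LinearMap.ext fun v => ?_
  choose x hx using fun i => hφ (v i)
  have := h x
  simp only [hx] at this
  exact this

/-- codimension six -/
theorem main6 (core : CoreStatement.{u}) (P : PStatement.{u}) (six : SixStatement.{u})
    (R : Type u) [CommRing R] [IsRegularLocalRing R] [Infinite (ResidueField R)] [Algebra ℚ R] :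
    MainG R 6 := by
  intro f a w h hs
  obtain ⟨p, hp, hpf, hpw⟩ := P R f a w h
  obtain ⟨S, _, _, φ, f', hsurj, hloc, hdim, hf', hS⟩ := hs
  let : Algebra ℚ S := (φ.comp (algebraMap ℚ R)).toAlgebra
  have hlf : lf (p3 (φ ∘ p : E8 S)) = f' := form_unique hsurj fun v => by
    rw [hf', lf_comp, hpf]
  obtain ⟨m, hm⟩ := core S hdim (φ ∘ p) (cone_map φ hp) (fun i j => φ (a i j)) (by
    rw [hlf, nu6_comp]
    exact slice_congr hf' hS hpw)
  have h2 := six R p hp ⟨m, isUnit_of_map hloc hm⟩ a (by rw [hpf]; exact gdat_congr h hpw)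
  rwa [hpf] at h2

section five

variable {R S : Type u} [CommRing R] [CommRing S]

/-- the linear form `(f, y)` -/
noncomputable def xf {T : Type u} [CommRing T] (i : S →+* T) (y : T) {n : ℕ}
    (f : (Fin n → S) →ₗ[S] S) : (Fin (n + 1) → T) →ₗ[T] T :=
  Fintype.linearCombination T (Fin.snoc (fun j => i (f (Pi.single j 1))) y)

/-- the tuple `(e_last, a)` -/
def xt {T : Type u} [CommRing T] (i : S →+* T) {n c : ℕ} (a : Fin c → Fin n → S) :
    Fin (c + 1) → Fin (n + 1) → T :=
  Fin.cons (Pi.single (Fin.last n) 1) fun k => Fin.snoc (fun j => i (a k j)) 0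

/-- a regular local ring of one dimension more, with a retraction -/
theorem exists_ext (S : Type u) [CommRing S] [IsRegularLocalRing S] [Algebra ℚ S] :
    ∃ (T : Type u) (_ : CommRing T) (_ : IsRegularLocalRing T) (_ : Algebra ℚ T)
      (i : S →+* T) (π : T →+* S) (y : T), (∀ r, π (i r) = r) ∧ π y = 0 ∧
      (∀ k : ℕ, ringKrullDim S = (k : ℕ) → ringKrullDim T = ((k + 1 : ℕ) : ℕ)) ∧
      (∀ (n c : ℕ) (f : (Fin n → S) →ₗ[S] S) (a : Fin c → Fin n → S) (w : S), GDat S f a w →
        GDat T (xf i y f) (xt i a) (i w)) ∧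
      ∀ (n c : ℕ) (f : (Fin n → S) →ₗ[S] S) (a : Fin c → Fin n → S) (z : T),
        z ∈ Ideal.span (Set.range fun j => xf i y f (xt i a j)) →
          π z ∈ Ideal.span (Set.range fun j => f (a j)) := by
  refine ⟨S⟦X⟧, inferInstance, inferInstance, inferInstance, C, constantCoeff, X,
    fun r => constantCoeff_C r, constantCoeff_X, fun k h => ?_, fun n c f a w h => gdat_ext h,
    fun n c f a z h => (mem_span_extTup f a z).1 h⟩
  rw [← IsRegularLocalRing.spanFinrank_maximalIdeal (R := S)] at h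
  rw [← IsRegularLocalRing.spanFinrank_maximalIdeal (R := S⟦X⟧), ps_spanFinrank]
  have h1 : (maximalIdeal S).spanFinrank = k := by exact_mod_cast h
  rw [h1]

/-- the tuple `(e_8, x)` -/
def tup (x : Fin 5 → Fin 7 → R) : Fin 6 → Fin 8 → R :=
  Matrix.vecCons (Pi.single (Fin.last 7) 1) fun i => ext0 R (x i)

theorem tup_zero (x : Fin 5 → Fin 7 → R) : tup x 0 = Pi.single (Fin.last 7) 1 := rfl

theorem tup_succ (x : Fin 5 → Fin 7 → R) (k : Fin 5) : tup x k.succ = ext0 R (x k) := rfl

theorem last7 : (Fin.last 7 : Fin 8) = 7 := rfl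

theorem tup_zero' (x : Fin 5 → Fin 7 → R) : tup x 0 = Pi.single 7 1 := by
  rw [tup_zero, last7]

theorem nu5_apply (p : E8 R) (x : Fin 5 → Fin 7 → R) : nu5 p x = nu6 p (tup x) := by
  rw [nu5, AlternatingMap.compLinearMap_apply, AlternatingMap.curryLeft_apply_apply]
  exact congrArg (fun t => nu6 p t) rfl

theorem ext0_last (v : Fin 7 → R) : ext0 R v (Fin.last 7) = 0 := by
  show (Fin.snoc v 0 : Fin 8 → R) (Fin.last 7) = 0
  exact Fin.snoc_last _ _

theorem ext0_castSucc (v : Fin 7 → R) (i : Fin 7) : ext0 R v i.castSucc = v i := by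
  show (Fin.snoc v 0 : Fin 8 → R) i.castSucc = v i
  exact Fin.snoc_castSucc _ _ _

theorem lf5_apply (p : E8 R) (v : Fin 7 → R) :
    lf5 p v = ∑ i : Fin 7, p3 p i.castSucc * v i := by
  show lf (p3 p) (ext0 R v) = _
  rw [lf_apply, Fin.sum_univ_castSucc]
  rw [ext0_last, mul_zero, add_zero]
  exact Finset.sum_congr rfl fun i _ => by rw [ext0_castSucc]

theorem single_comp {T : Type u} [CommRing T] (ψ : R →+* T) {n : ℕ} (i l : Fin n) :
    ψ ((Pi.single i 1 : Fin n → R) l) = (Pi.single i 1 : Fin n → T) l := by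
  by_cases h : l = i
  · subst h
    rw [Pi.single_eq_same, Pi.single_eq_same, map_one]
  · rw [Pi.single_eq_of_ne h, Pi.single_eq_of_ne h, map_zero]

section ext

variable {T : Type u} [CommRing T] (i : S →+* T) (y : T)

theorem xt_zero (x : Fin 5 → Fin 7 → S) : xt i x 0 = Pi.single (Fin.last 7) 1 := rfl

theorem xt_zero' (x : Fin 5 → Fin 7 → S) : xt i x 0 = Pi.single 7 1 := by
  rw [xt_zero, last7]

theorem xt_succ (x : Fin 5 → Fin 7 → S) (k : Fin 5) :
    xt i x k.succ = Fin.snoc (fun j => i (x k j)) 0 := rfl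

theorem xt_eq (x : Fin 5 → Fin 7 → S) : xt i x = fun k l => i (tup x k l) := by
  funext k l
  refine Fin.cases ?_ (fun k => ?_) k
  · rw [xt_zero, tup_zero, single_comp]
  · rw [xt_succ, tup_succ]
    refine Fin.lastCases ?_ (fun l => ?_) l
    · rw [ext0_last, map_zero]
      exact Fin.snoc_last _ _
    · rw [ext0_castSucc]
      exact Fin.snoc_castSucc _ _ _

theorem tup_map (φ : R →+* S) (x : Fin 5 → Fin 7 → R) :
    tup (fun j l => φ (x j l)) = fun k l => φ (tup x k l) := by
  funext k l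
  refine Fin.cases ?_ (fun k => ?_) k
  · rw [tup_zero, tup_zero, single_comp]
  · rw [tup_succ, tup_succ]
    refine Fin.lastCases ?_ (fun l => ?_) l
    · rw [ext0_last, ext0_last, map_zero]
    · rw [ext0_castSucc, ext0_castSucc]

theorem xf_last (f : (Fin 7 → S) →ₗ[S] S) : xf i y f (Pi.single (Fin.last 7) 1) = y := by
  rw [xf, Fintype.linearCombination_apply, Finset.sum_eq_single (Fin.last 7)]
  · rw [Pi.single_eq_same, one_smul]
    exact Fin.snoc_last _ _
  · intro j _ hj
    rw [Pi.single_eq_of_ne hj, zero_smul]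
  · intro h
    exact absurd (Finset.mem_univ _) h

theorem xf_castSucc (f : (Fin 7 → S) →ₗ[S] S) (j : Fin 7) :
    xf i y f (Pi.single j.castSucc 1) = i (f (Pi.single j 1)) := by
  rw [xf, Fintype.linearCombination_apply, Finset.sum_eq_single j.castSucc]
  · rw [Pi.single_eq_same, one_smul]
    exact Fin.snoc_castSucc _ _ _
  · intro l _ hl
    rw [Pi.single_eq_of_ne hl, zero_smul]
  · intro h
    exact absurd (Finset.mem_univ _) h

/-- the six-form of `y e_8 + i (q)` on the extended tuple -/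
theorem nu6_xt (q : E8 S) (x : Fin 5 → Fin 7 → S) :
    nu6 (y • eb (ix 7) + i ∘ q) (xt i x) = i (nu6 q (tup x)) := by
  rw [← nu6_comp i, ← xt_eq]
  exact nu6_congr (fun j k _ _ => w2_add_theta _ _ j k) _ (xt_zero' i x)

end ext

/-- two linear forms with the same coefficients -/
theorem form_ext {n : ℕ} {g g' : (Fin n → R) →ₗ[R] R}
    (h : ∀ i, g (Pi.single i 1) = g' (Pi.single i 1)) : g = g' :=
  (Pi.basisFun R (Fin n)).ext fun i => by rw [Pi.basisFun_apply]; exact h i

theorem castSucc_ne (k : Fin 7) : (k.castSucc : Fin 8) ≠ 7 := (Fin.castSucc_lt_last k).ne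

theorem p3_ext {T : Type u} [CommRing T] (j : S →+* T) (z : T) (q : E8 S)
    (t2 : Th1 (j ∘ q : E8 T)) (f' : (Fin 7 → S) →ₗ[S] S)
    (h : ∀ k : Fin 7, p3 q k.castSucc = f' (Pi.single k 1)) :
    lf (p3 (z • eb (ix 7) + j ∘ q)) = xf j z f' := by
  refine form_ext fun k => (lf_single _ k).trans ?_
  rw [p3_add_theta _ t2]
  refine Fin.lastCases ?_ (fun k => ?_) k
  · rw [xf_last]
    exact if_pos rfl
  · rw [xf_castSucc, if_neg (castSucc_ne k), ← h]
    rfl

/-- the unit coordinate in codimension five -/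
theorem unit5 (core : CoreStatement.{u}) (S : Type u) [CommRing S] [IsRegularLocalRing S]
    [Algebra ℚ S] (hdim : ringKrullDim S = (5 : ℕ)) (q : E8 S) (hq : Cone q) (hq1 : Th1 q)
    (a : Fin 5 → Fin 7 → S) (f : (Fin 7 → S) →ₗ[S] S)
    (hqf : ∀ k : Fin 7, p3 q k.castSucc = f (Pi.single k 1))
    (h : GDat S f a (nu5 q a)) : ∃ m, IsUnit (q m) := by
  obtain ⟨U, _, _, _, j, ρ, z, hj, hz, hUdim, hUext, -⟩ := exists_ext S
  have c2 : Cone (j ∘ q) := cone_map _ hq
  have t2 : Th1 (j ∘ q) := fun m hm => by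
    rw [Function.comp_apply, hq1 m hm, map_zero]
  have g1 := p3_ext j z q t2 f hqf
  have g2 : nu6 (z • eb (ix 7) + j ∘ q) (xt j a) = j (nu5 q a) := by
    rw [nu6_xt, nu5_apply]
  obtain ⟨m, hm⟩ := core U (hUdim 5 hdim) (z • eb (ix 7) + j ∘ q)
    (cone_add_theta c2 t2 z) (xt j a) (by
      rw [g1, g2]
      exact hUext _ _ f a _ h)
  exact ⟨m, p5_unit j ρ hj hz hm⟩

theorem nu5_of {T : Type u} [CommRing T] (i : S →+* T) (π : T →+* S) (hi : ∀ r, π (i r) = r)
    {q : E8 S} {p' : E8 T} (e2 : ∀ j k, w2 q j k = if j = 7 ∨ k = 7 then 0 else π (w2 p' j k))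
    (a : Fin 5 → Fin 7 → S) : nu5 q a = π (nu6 p' (xt i a)) := by
  have h1 : (fun (k : Fin 6) (l : Fin 8) => π (xt i a k l)) = tup a := by
    rw [xt_eq]
    funext k l
    exact hi _
  have h2 : nu6 (π ∘ p' : E8 S) (fun (k : Fin 6) (l : Fin 8) => π (xt i a k l)) =
    π (nu6 p' (xt i a)) := nu6_comp π p' (xt i a)
  rw [h1] at h2
  rw [nu5_apply, ← h2]
  refine nu6_congr (fun j k hj hk => ?_) _ (tup_zero' a)
  rw [e2, if_neg (by simp [hj, hk]), w2_comp]

/-- the point of the 56 -/
theorem exists_q (P : PStatement.{u}) (R : Type u) [CommRing R] [IsRegularLocalRing R]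
    [Algebra ℚ R] (f : (Fin 7 → R) →ₗ[R] R) (a : Fin 5 → Fin 7 → R) (w : R) (h : GDat R f a w) :
    ∃ q : E8 R, Cone q ∧ Th1 q ∧ (∀ j : Fin 7, p3 q j.castSucc = f (Pi.single j 1)) ∧
      lf5 q = f ∧ nu5 q a - w ∈ Ideal.span (Set.range fun j => f (a j)) := by
  obtain ⟨T, _, _, _, i, π, y, hi, hy, -, hext, hspan⟩ := exists_ext R
  obtain ⟨p', hp', hpf', hpw'⟩ := P T (xf i y f) (xt i a) (i w) (hext _ _ f a w h)
  have h7 : p3 p' 7 = y := by
    refine (lf_single (p3 p') 7).symm.trans ?_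
    rw [hpf', ← last7, xf_last]
  obtain ⟨hq, hq1, -, e1, e2, -, -⟩ := p5_spec i π hy hp' h7
  have hqf : ∀ j : Fin 7, p3 (p5 π p') j.castSucc = f (Pi.single j 1) := by
    intro j
    rw [e1, if_neg (castSucc_ne j), ← lf_single (p3 p'), hpf', xf_castSucc, hi]
  refine ⟨p5 π p', hq, hq1, hqf, ?_, ?_⟩
  · refine LinearMap.ext fun v => ?_
    rw [lf5_apply, form_eq f v]
    exact Finset.sum_congr rfl fun j _ => by rw [hqf, mul_comm]
  · have hnu := nu5_of i π hi e2 a
    have := hspan _ _ f a _ hpw'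
    rwa [map_sub, hi, ← hnu] at this

/-- codimension five -/
theorem main5 (core : CoreStatement.{u}) (P : PStatement.{u}) (five : FiveStatement.{u})
    (R : Type u) [CommRing R] [IsRegularLocalRing R] [Infinite (ResidueField R)] [Algebra ℚ R] :
    MainG R 5 := by
  intro f a w h hs
  obtain ⟨q, hq, hq1, hqf, hlf, hw⟩ := exists_q P R f a w h
  -- the slice
  obtain ⟨S, _, _, φ, f', hsurj, hloc, hdim, hf', hS⟩ := hs
  let : Algebra ℚ S := (φ.comp (algebraMap ℚ R)).toAlgebra
  have hu : ∃ m, IsUnit (q m) := by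
    have c1 : Cone (φ ∘ q) := cone_map φ hq
    have t1 : Th1 (φ ∘ q) := fun m hm => by
      rw [Function.comp_apply, hq1 m hm, map_zero]
    obtain ⟨m, hm⟩ := unit5 core S hdim (φ ∘ q) c1 t1 (fun k l => φ (a k l)) f' (fun k => by
        show φ (p3 q k.castSucc) = _
        rw [hqf, ← hf']
        congr 1
        funext l
        exact single_comp φ k l) (by
        have g2 : nu5 (φ ∘ q) (fun k l => φ (a k l)) = φ (nu5 q a) := by
          rw [nu5_apply, nu5_apply, tup_map φ a, nu6_comp φ]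
        rw [g2]
        exact slice_congr hf' hS hw)
    exact ⟨m, isUnit_of_map hloc hm⟩
  have h2 := five R q hq hq1 hu a (by rw [hlf]; exact gdat_congr h hw)
  rwa [hlf] at h2

end five

end Pool.Agent.Licci.Z
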