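import Pool.Agent.Work.MP_a98e4e_ag.Z.CoreUnit
import Pool.Agent.Work.MP_a98e4e_ag.D.End
import Pool.Agent.Work.MP_a98e4e_ag.XE.Datum

/-!
MP_a98e4e_ag (licci), module Z (helper23): the main theorem.
-/

set_option autoImplicit false

universe u

open IsLocalRing LicciCodimFour

/-- a point of the cone which represents linkage data over a regular local ring of dimension six
has a unit coordinate -/
theorem Pool.Agent.Licci.Fin6.coreUnit (S : Type u) [CommRing S] [IsRegularLocalRing S]
    [Algebra ℚ S] : Pool.Agent.Licci.Fin6.CoreUnit S := by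
  intro p a w hc h hw hdim
  have : IsDomain S := isDomain_of_isRegularLocalRing S
  have : CharZero (ResidueField S) := LicciCore.charZero_residue ⟨inferInstance⟩
  exact Pool.Agent.Licci.Z.unit_of_h23 hc h hdim
    (Pool.Agent.Licci.XE.H23_dual_VR_datum hc h hw hdim)

/-- Every perfect ideal with Dynkin invariants in codimension at least four is licci. -/
theorem Pool.Agent.Licci.Z.licci_main (R : Type u) [CommRing R] [IsRegularLocalRing R]
    [CharZero (ResidueField R)] (I : Ideal R) (c d t : ℕ) (hc : 4 ≤ c) (hd : 1 ≤ d) (ht : 1 ≤ t)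
    (hdyn : IsDynkinT (c - 1) (d + 1) (t + 1))
    (hI : IsPerfectOfInvariants I c d t) : IsLicci I :=
  Pool.Agent.Licci.Fin6.licci_of_coreUnit
    (fun S _ _ _ => Pool.Agent.Licci.Fin6.coreUnit S) R I c d t hc hd ht hdyn hI
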