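import Pool.Agent.Work.MP_a98e4e_ag.E.Defs
import Pool.Agent.Work.MP_a98e4e_ag.D.RingS
import Pool.Agent.Work.MP_a98e4e_ag.D.GDat
import Pool.Agent.Work.MP_a98e4e_ag.D.Theta
import Pool.Agent.Work.MP_a98e4e_ag.L.RState

/-!
MP_a98e4e_ag (licci), module Z (helper23): the statements of the parts of the proof in codimension
five and six.
-/

set_option autoImplicit false

namespace Pool.Agent.Licci.Z

open IsLocalRing RingTheory.Sequence LicciCodimFour PowerSeries Pool.Agent.Licci.D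
open Pool.Agent.Licci.P5

universe u

/-! ## data -/

section datum

variable {R : Type u} [CommRing R] [IsLocalRing R] {n c : ℕ}

/-- changing `w` modulo `A` -/
theorem gdat_congr {f : (Fin n → R) →ₗ[R] R} {a : Fin c → Fin n → R} {w w' : R}
    (h : GDat R f a w) (hw : w' - w ∈ Ideal.span (Set.range fun i => f (a i))) :
    GDat R f a w' := by
  refine ⟨h.mem, h.reg, fun y hy => ?_, fun y => ?_⟩
  · obtain ⟨s, hs, t, ht, rfl⟩ := Submodule.mem_sup.1 (h.col y hy)
    obtain ⟨r, rfl⟩ := Ideal.mem_span_singleton'.1 ht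
    have e : s + r * w = (s - r * (w' - w)) + r * w' := by ring
    rw [e]
    exact Ideal.add_mem _ (Ideal.mem_sup_left (Ideal.sub_mem _ hs (Ideal.mul_mem_left _ _ hw)))
      (Ideal.mem_sup_right (Ideal.mul_mem_left _ _ (Ideal.mem_span_singleton_self _)))
  · rw [← h.ann y]
    have e : y * w' = y * (w' - w) + y * w := by ring
    rw [e]
    exact ⟨fun h1 => by
      have h2 := Ideal.sub_mem _ h1 (Ideal.mul_mem_left _ y hw)
      rwa [add_sub_cancel_left] at h2, fun h1 => Ideal.add_mem _ (Ideal.mul_mem_left _ y hw) h1⟩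

/-- the datum of grade `c + 1` over the power series ring -/
theorem gdat_ext {f : (Fin n → R) →ₗ[R] R} {a : Fin c → Fin n → R} {w : R}
    (h : GDat R f a w) : GDat R⟦X⟧ (extForm f) (extTup a) (C w) := by
  refine ⟨fun v => ?_, ext_regular_tup h.reg, ext_col h.col, ext_iff h.ann⟩
  rw [ps_mem_maximalIdeal, constantCoeff_extForm]
  exact h.mem _

end datum

/-! ## forms -/

section forms

variable {R : Type u} [CommRing R]

/-- the six-form of the component of degree two of `p`: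
`(x_1, …, x_6) ↦ ζ ∧ x_1 ∧ ⋯ ∧ x_6`, `ζ = ∑_{i<j} w2 p i j e_i ∧ e_j` -/
noncomputable def nu6 (p : E8 R) : (Fin 8 → R) [⋀^Fin 6]→ₗ[R] R :=
  ∑ i : Fin 8, ∑ j : Fin 8, (if i < j then w2 p i j else 0) •
    (((Matrix.detRowAlternating (R := R) (n := Fin 8)).curryLeft
      (Pi.single i 1)).curryLeft (Pi.single j 1))

/-- extension by zero -/
def ext0 (R : Type u) [CommRing R] : (Fin 7 → R) →ₗ[R] (Fin 8 → R) where
  toFun v := (Fin.snoc v 0 : Fin 8 → R)
  map_add' v w := by
    funext i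
    refine Fin.lastCases ?_ (fun i => ?_) i
    · rw [Pi.add_apply, Fin.snoc_last, Fin.snoc_last, Fin.snoc_last, add_zero]
    · rw [Pi.add_apply, Fin.snoc_castSucc, Fin.snoc_castSucc, Fin.snoc_castSucc, Pi.add_apply]
  map_smul' c v := by
    funext i
    refine Fin.lastCases ?_ (fun i => ?_) i
    · rw [Pi.smul_apply, Fin.snoc_last, Fin.snoc_last, smul_zero]
    · rw [Pi.smul_apply, Fin.snoc_castSucc, Fin.snoc_castSucc, Pi.smul_apply]
      rfl

/-- the five-form on the first seven coordinates -/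
noncomputable def nu5 (p : E8 R) : (Fin 7 → R) [⋀^Fin 5]→ₗ[R] R :=
  ((nu6 p).curryLeft (Pi.single (Fin.last 7) 1)).compLinearMap (ext0 R)

/-- the linear form of `p` on the first seven coordinates -/
def lf5 (p : E8 R) : (Fin 7 → R) →ₗ[R] R := (lf (p3 p)).comp (ext0 R)

end forms

/-! ## the parts -/

/-- (CORE) -/
def CoreStatement : Prop :=
  ∀ (R : Type u) [CommRing R] [IsRegularLocalRing R] [Algebra ℚ R]
    (_ : ringKrullDim R = (6 : ℕ)) (p : E8 R) (_ : Cone p)
    (a : Fin 6 → Fin 8 → R) (_ : GDat R (lf (p3 p)) a (nu6 p a)), ∃ m, IsUnit (p m)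

/-- (P) the point of the cone -/
def PStatement : Prop :=
  ∀ (R : Type u) [CommRing R] [IsRegularLocalRing R] [Algebra ℚ R]
    (f : (Fin 8 → R) →ₗ[R] R) (a : Fin 6 → Fin 8 → R) (w : R) (_ : GDat R f a w),
    ∃ p : E8 R, Cone p ∧ lf (p3 p) = f ∧
      nu6 p a - w ∈ Ideal.span (Set.range fun i => f (a i))

/-- (SIX) the descent for `c = 6` -/
def SixStatement : Prop :=
  ∀ (R : Type u) [CommRing R] [IsRegularLocalRing R] [Infinite (ResidueField R)] [Algebra ℚ R]
    (p : E8 R) (_ : Cone p) (_ : ∃ m, IsUnit (p m)) (a : Fin 6 → Fin 8 → R)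
    (_ : GDat R (lf (p3 p)) a (nu6 p a)), IsLicci (LinearMap.range (lf (p3 p)))

/-- (FIVE) the descent for `c = 5` -/
def FiveStatement : Prop :=
  ∀ (R : Type u) [CommRing R] [IsRegularLocalRing R] [Infinite (ResidueField R)] [Algebra ℚ R]
    (p : E8 R) (_ : Cone p) (_ : Th1 p) (_ : ∃ m, IsUnit (p m)) (a : Fin 5 → Fin 7 → R)
    (_ : GDat R (lf5 p) a (nu5 p a)), IsLicci (LinearMap.range (lf5 p))

end Pool.Agent.Licci.Z
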